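import Pool.Agent.H6.GS2.Bas

/-!
Row BNM of the board gsw: bounds for optimal sums.
-/

set_option autoImplicit false

open Finset Pool.Agent.H6.N4D Pool.Agent.H93 Pool.Agent.H93.GS Pool.Agent.H6.GS2

namespace Pool.Agent.H67.GSW

theorem pf_BNM : T_BNM := by
  intro th lam q N n g hth hl hq hN hg
  have h1 := J_le th lam q N n hth.le hl hq hN g
  have h0 := En_nonneg th lam q N n hth.le hl hq hN
  have h2 := En_le th lam q N n hth.le hl hq hN
  have h3 := ar_one_le q N n hq hN
  have hmx := hg.mx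
  have hnm := mul_nonneg hth.le (nm_nonneg g)
  -- the residual
  have h4 : ar q N n (fun m => ‖(lam m : ℂ) - g.f m‖ ^ 2) =
      ar q N n (fun m => lam m ^ 2) -
        ar q N n (fun m => 2 * lam m * (g.f m).re - ‖g.f m‖ ^ 2) := by
    rw [← ar_sub]
    refine ar_congr q N n fun m _ _ => ?_
    rw [← Complex.normSq_eq_norm_sq, ← Complex.normSq_eq_norm_sq, Complex.normSq_apply,
      Complex.normSq_apply]
    simp only [Complex.sub_re, Complex.sub_im, Complex.ofReal_re, Complex.ofReal_im]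
    ring
  have h5 : ar q N n (fun m => lam m ^ 2) ≤ ar q N n (fun _ => 1) := by
    refine ar_mono q N n fun m _ _ => ?_
    have := abs_le.1 (hl m)
    nlinarith
  have h6 : J th lam q N n g =
      ar q N n (fun m => 2 * lam m * (g.f m).re - ‖g.f m‖ ^ 2) - 2 * th * g.nm := rfl
  have h7 : ar q N n (fun m => ‖(lam m : ℂ) - g.f m‖ ^ 2) ≤ 1 + q / N := by
    rw [h4]
    linarith
  have h8 : ar q N n (fun m => ‖(lam m : ℂ) - g.f m‖) ≤
      (1 / 2) * ar q N n (fun m => ‖(lam m : ℂ) - g.f m‖ ^ 2) +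
        (1 / 2) * ar q N n (fun _ => 1) := by
    rw [← ar_mul, ← ar_mul, ← ar_add]
    refine ar_mono q N n fun m _ _ => ?_
    nlinarith [sq_nonneg (‖(lam m : ℂ) - g.f m‖ - 1)]
  refine ⟨by linarith, h0, h2, h7, by linarith⟩

end Pool.Agent.H67.GSW
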