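import Pool.Agent.H6.GS2.Bas

/-!
Row PCA of the board gsw: averages over the pieces.
-/

set_option autoImplicit false

open Finset Pool.Agent.H6.N4D Pool.Agent.H93 Pool.Agent.H93.GS Pool.Agent.H6.GS2

namespace Pool.Agent.H67.GSW

theorem pca_sum {E : Type} [AddCommMonoid E] (q P L n : ℕ) (F : ℕ → E) :
    ∑ m ∈ (Ioc n (n + P * L)).filter (fun m => q ∣ m), F m =
      ∑ j ∈ range P, ∑ m ∈ (Ioc (n + j * L) (n + j * L + L)).filter (fun m => q ∣ m), F m := by
  rw [Finset.sum_filter, mul_comm P L, EB.sum_Ioc_mul]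
  refine Finset.sum_congr rfl fun j _ => ?_
  rw [Finset.sum_filter, mul_comm L j]

theorem pca_ar (q P L n : ℕ) (hP : 1 ≤ P) (hL : 1 ≤ L) (F : ℕ → ℝ) :
    ar q (P * L) n F = (∑ j ∈ range P, ar q L (n + j * L) F) / P := by
  have hP' : (P : ℝ) ≠ 0 := by
    have : 0 < P := hP
    exact_mod_cast this.ne'
  have hL' : (L : ℝ) ≠ 0 := by
    have : 0 < L := hL
    exact_mod_cast this.ne'
  unfold ar
  rw [pca_sum, ← Finset.sum_div, ← Finset.sum_mul]
  push_cast
  field_simp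

theorem pca_ac (q P L n : ℕ) (hP : 1 ≤ P) (hL : 1 ≤ L) (F : ℕ → ℂ) :
    ac q (P * L) n F = (∑ j ∈ range P, ac q L (n + j * L) F) / P := by
  have hP' : (P : ℂ) ≠ 0 := by
    have : 0 < P := hP
    exact_mod_cast this.ne'
  have hL' : (L : ℂ) ≠ 0 := by
    have : 0 < L := hL
    exact_mod_cast this.ne'
  unfold ac
  rw [pca_sum, ← Finset.sum_div, ← Finset.sum_mul]
  push_cast
  field_simp

theorem pf_PCA : T_PCA := by
  intro q P L n hP hL
  refine ⟨pca_ar q P L n hP hL, pca_ac q P L n hP hL, fun th lam g => ?_⟩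
  have hP' : (P : ℝ) ≠ 0 := by
    have : 0 < P := hP
    exact_mod_cast this.ne'
  unfold J
  rw [pca_ar q P L n hP hL, Finset.sum_sub_distrib, Finset.sum_const, Finset.card_range,
    nsmul_eq_mul, sub_div, mul_div_cancel_left₀ _ hP']

end Pool.Agent.H67.GSW
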